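import Pool.Agent.PIt.Run
import Pool.Agent.Book19.Letter

/-! # P is closed under iteration of letterwise steps -/

set_option autoImplicit false

namespace Pool.Agent.PIt

open Pool.Agent.PT Pool.Agent.Book19

variable {Γ Δ : Type}

/-- A word whose length and letters are denoted by terms is of the form `wd m t K φ`: number the
letters, `t` is the sum over the letters `d` of `(number of d) * [letter i is d]` (`UF.fsum`,
`UF.ite`), `φ` the inverse of the numbering, `K` the number of letters. If `Δ` is empty all the words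
are empty. -/
theorem exists_wd [Fintype Δ] [Nonempty Δ] (M : List Γ → ℕ) (hM : UF fun x _ => M x)
    (Z : List Γ → List Δ) (hlen : ∀ x, (Z x).length = M x)
    (hZ : ∀ d : Δ, UP fun x e => (Z x)[e 0]? = some d) :
    ∃ (m t : Tm Γ) (K : ℕ) (φ : ℕ → Δ), (∀ x, m.eval x (fun _ => 0) = M x) ∧
      ∀ x, Z x = wd m t K φ x := by
  classical
  obtain ⟨m, hm⟩ := hM
  have h1 : UF fun (x : List Γ) e => ∑ d : Δ,
      (Fintype.equivFin Δ d : ℕ) * (if (Z x)[e 0]? = some d then 1 else 0) :=
    UF.fsum _ fun d _ => UF.mul (UF.const _)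
      (UF.congr (hZ d) fun x e => by by_cases h : (Z x)[e 0]? = some d <;> simp [h])
  obtain ⟨t, ht⟩ := h1
  obtain ⟨φ, hφ⟩ : ∃ φ : ℕ → Δ, ∀ d : Δ, φ (Fintype.equivFin Δ d : ℕ) = d :=
    ⟨fun k => if h : k < Fintype.card Δ then
      (Fintype.equivFin Δ).symm ⟨k, h⟩ else Classical.arbitrary Δ, fun d => by
        beta_reduce
        rw [dif_pos (Fintype.equivFin Δ d).2]
        simp⟩
  refine ⟨m, t, Fintype.card Δ, φ, fun x => hm x _, fun x => ?_⟩
  have key : ∀ (i : ℕ) (hi : i < (Z x).length),
      φ (min (t.eval x (cons i fun _ => 0)) (Fintype.card Δ)) = (Z x)[i] := by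
    intro i hi
    have h2 : t.eval x (cons i fun _ => 0) = (Fintype.equivFin Δ (Z x)[i] : ℕ) := by
      rw [ht]
      show ∑ d : Δ, (Fintype.equivFin Δ d : ℕ) * (if (Z x)[i]? = some d then 1 else 0) = _
      rw [List.getElem?_eq_getElem hi, Finset.sum_eq_single (Z x)[i]]
      · simp
      · intro d _ hd
        rw [if_neg, mul_zero]
        intro h4
        exact hd (Option.some.inj h4).symm
      · intro h4
        exact absurd (Finset.mem_univ _) h4
    rw [h2, min_eq_left (Fintype.equivFin Δ (Z x)[i]).2.le, hφ]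
  apply List.ext_getElem
  · simp [wd, hm, hlen]
  · intro i hi hi'
    rw [← key i hi]
    simp only [wd, List.getElem_map, List.getElem_range]

/-- **P is closed under iteration**: the number of steps, the length and the letters of the first
word, the letters of the next word and the last test are denoted by terms. `exists_wd` (for the step
with `M = List.length`, `UF.len`; `wd m t K φ z = wd Tm.len t K φ z` as the lengths agree) and
`polyTime_iter`. -/
theorem inPoly_iter [Fintype Γ] [Fintype Δ] [Nonempty Δ] (L : Set (List Γ)) (R M : List Γ → ℕ)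
    (hR : UF fun x _ => R x) (hM : UF fun x _ => M x) (Z : List Γ → List Δ)
    (hlen : ∀ x, (Z x).length = M x) (hZ : ∀ d : Δ, UP fun x e => (Z x)[e 0]? = some d)
    (S : List Δ → List Δ) (hS : ∀ z, (S z).length = z.length)
    (hS' : ∀ d : Δ, UP fun z e => (S z)[e 0]? = some d) (Q : List Δ → Prop)
    (hQ : UP fun z _ => Q z) (h : ∀ x, x ∈ L ↔ Q (S^[R x] (Z x))) : InPoly L := by
  classical
  obtain ⟨R', hR'⟩ := hR
  obtain ⟨m, t₀, K₀, φ₀, -, h0⟩ := exists_wd M hM Z hlen hZ
  obtain ⟨m', t, K, φ, hm', h1⟩ := exists_wd List.length UF.len S hS hS'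
  obtain ⟨tf, htf⟩ := hQ
  have h2 : stp t K φ = S := by
    funext z
    rw [h1 z]
    simp only [stp, wd, hm', Tm.eval]
  refine ⟨fun x => decide (Q (S^[R x] (Z x))), polyTime_iter R' m t₀ K₀ φ₀ t K φ tf _ fun x => ?_,
    fun x => by rw [h x]; simp⟩
  rw [h2, hR', ← h0 x, htf]
  by_cases h3 : Q (S^[R x] (Z x)) <;> simp [h3]

end Pool.Agent.PIt
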