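import Pool.Agent.PIt.OutL

/-! # One block -/

set_option autoImplicit false

namespace Pool.Agent.PIt

open Pool.Agent.PT
open Function (update)

variable {Γ A : Type}

/-- As `runs_outP` in `PT/Out.lean`: `exists_spec` for `m` and `t`, then the parts of `blk` one after
the other (`runs_mv`, `runs_outL`, `runs_clear`, `runs_mv`, `runs_mv`), register `5` untouched. -/
theorem runs_blk (g : Γ → A) (hg : Function.Injective g) (u : A) (m t : Tm Γ) (K : ℕ)
    (φ : ℕ → A) : ∃ T : ℕ → ℕ, PB T ∧ ∀ (x : List Γ) (s : Store A), St (x.map g) s →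
      (wd m t K φ x).length ≤ T x.length ∧
      Runs (blk g u m t K φ) s (update s 0 (wd m t K φ x)) (T x.length) := by
  obtain ⟨M, hM⟩ := exists_spec g hg u m
  obtain ⟨T, hT⟩ := exists_spec g hg u t
  have hT' : PB (fun N => T (N + M N)) := hT.pb.comp (PB.id.add hM.pb)
  refine ⟨fun N => M N + ((2 * M N + 1) + ((M N * (T (N + M N) + (2 * T (N + M N) + K + 2) + 1)
    + 1) + ((2 * N + 1) + ((2 * M N + 1) + (2 * M N + 1))))), ?_, ?_⟩
  · exact hM.pb.add ((((PB.const 2).mul hM.pb).add (PB.const 1)).add
      (((hM.pb.mul ((hT'.add ((((PB.const 2).mul hT').add (PB.const K)).add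
      (PB.const 2))).add (PB.const 1))).add (PB.const 1)).add
      ((((PB.const 2).mul PB.id).add (PB.const 1)).add
      ((((PB.const 2).mul hM.pb).add (PB.const 1)).add
      (((PB.const 2).mul hM.pb).add (PB.const 1))))))
  · intro x s hs
    set N := x.length with hN
    have hmval := hM.val N x (fun _ => 0) le_rfl (fun _ => Nat.zero_le _)
    set b := m.eval x (fun _ => 0) with hb
    have hlen : (wd m t K φ x).length = b := by simp [wd, hb]
    refine ⟨by rw [hlen]; exact le_trans hmval (Nat.le_add_right _ _), ?_⟩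
    have g1 := hM.run N x (fun _ => 0) (fun _ => 3) 6 s le_rfl (fun _ => Nat.zero_le _)
      ⟨⟨hs.r0, hs.r1, fun _ => by omega, fun _ => by omega,
        fun _ => by rw [hs.r3]; rfl⟩, fun j hj => hs.r6 j hj⟩
    set s1 := update s 6 (un u b) with hs1
    have g2 := runs_mv 6 4 (by decide) (un u b) s1 (by simp [hs1])
    set s2 := update (update s1 6 []) 4 ((un u b).reverse ++ s1 4) with hs2
    have g3 := runs_outL g u t T hT (N + M N) x (by omega) K φ b [] s2 (by omega)
      (by simp [hs2, hs1, hs.r0]) (by simp [hs2, hs1, hs.r1]) (by simp [hs2, hs1, hs.r2])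
      (by simp [hs2, hs1, hs.r3]) (by simp [hs2, hs1, hs.r4]) (fun j hj => by
        by_cases e : j = 6
        · subst e; simp [hs2]
        · have : j ≠ 4 := by omega
          simp [hs2, hs1, this, e, hs.r6 j hj])
    set w := (List.range b).map (fun i => φ (min (t.eval x (cons i (fun _ => 0))) K)) with hw
    have hwd : wd m t K φ x = w := rfl
    set s3 := update (update s2 4 []) 2 (w ++ []) with hs3
    have g4 := runs_clear 0 (x.map g) s3 (by simp [hs3, hs2, hs1, hs.r0])
    set s4 := update s3 0 [] with hs4
    have g5 := runs_mv 2 3 (by decide) w s4 (by simp [hs4, hs3])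
    set s5 := update (update s4 2 []) 3 (w.reverse ++ s4 3) with hs5
    have g6 := runs_mv 3 0 (by decide) w.reverse s5 (by
      simp [hs5, hs4, hs3, hs2, hs1, hs.r3])
    refine (g1.seq (g2.seq (g3.seq (g4.seq (g5.seq g6))))).conv ?_ ?_
    · funext i
      rw [hwd]
      by_cases e0 : i = 0
      · subst e0; simp [hs5, hs4]
      · by_cases e2 : i = 2
        · subst e2; simp [hs5, hs.r2]
        · by_cases e3 : i = 3
          · subst e3; simp [hs.r3]
          · by_cases e4 : i = 4
            · subst e4; simp [hs5, hs4, hs3, hs.r4]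
            · by_cases e6 : i = 6
              · subst e6; simp [hs5, hs4, hs3, hs2, hs.r6 6 le_rfl]
              · simp [e0, e2, e3, e4, e6, hs5, hs4, hs3, hs2, hs1]
    · have h1 : w.length = b := by simp [hw]
      have h2 : b * (T (N + M N) + (2 * T (N + M N) + K + 2) + 1) ≤
          M N * (T (N + M N) + (2 * T (N + M N) + K + 2) + 1) := Nat.mul_le_mul_right _ hmval
      simp only [List.length_map, List.length_reverse, h1, ← hN, un_length]
      omega

end Pool.Agent.PIt
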