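import Pool.Agent.PT.Out
import Pool.Agent.PT.UF

/-!
# Iterating letterwise steps in polynomial time: definitions

The registers: `0` the current word, `1` scratch, `2` output, `3` empty (all variables `≥ 1` are
zero), `4` the loop over the letters, `5` the number of steps to come (untouched by the programs of
this file), from `6` on the temporary registers of compiled terms.
-/

set_option autoImplicit false

namespace Pool.Agent.PIt

open Pool.Agent.PT Turing Computability

variable {Γ Δ A : Type}

/-- The class P over Mathlib's Turing machines. -/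
def InPoly {Γ : Type} (L : Set (List Γ)) : Prop :=
  ∃ f : List Γ → Bool,
    Nonempty (TM2ComputableInPolyTime (encodingList Γ).encode encodeBool f) ∧
    ∀ x : List Γ, x ∈ L ↔ f x = true

/-- The word whose length is the value of the term `m` and whose letters are given by `φ` and the
values of the term `t`. -/
noncomputable def wd (m t : Tm Γ) (K : ℕ) (φ : ℕ → Δ) (x : List Γ) : List Δ :=
  (List.range (m.eval x (fun _ => 0))).map (fun i => φ (min (t.eval x (cons i (fun _ => 0))) K))

/-- The loop that writes the letters into register `2`. -/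
noncomputable def outL (g : Γ → A) (u : A) (t : Tm Γ) (K : ℕ) (φ : ℕ → A) : Prog A :=
  Prog.loop 4 (fun _ => Prog.seq
    (t.comp g u (fun i => Nat.casesOn i 4 (fun _ => 3)) 6) (disp 6 2 K φ))

/-- Replace the word `x` in register `0` by the word `wd m t K φ x`. -/
noncomputable def blk (g : Γ → A) (u : A) (m t : Tm Γ) (K : ℕ) (φ : ℕ → A) : Prog A :=
  Prog.seq (m.comp g u (fun _ => 3) 6) (Prog.seq (mv 6 4) (Prog.seq (outL g u t K φ)
    (Prog.seq (clear 0) (Prog.seq (mv 2 3) (mv 3 0)))))

/-- The stores between the blocks. -/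
structure St (l : List A) (s : Store A) : Prop where
  r0 : s 0 = l
  r1 : s 1 = []
  r2 : s 2 = []
  r3 : s 3 = []
  r4 : s 4 = []
  r6 : ∀ j, 6 ≤ j → s j = []

/-- The whole program: the number of steps into register `5`, the first word, the steps, the last
test. -/
noncomputable def itP (g : Γ → A) (g' : Δ → A) (u : A) (R m t₀ : Tm Γ) (K₀ : ℕ) (φ₀ : ℕ → A)
    (t : Tm Δ) (K : ℕ) (φ : ℕ → A) (tf : Tm Δ) (ψ : ℕ → A) : Prog A :=
  Prog.seq (R.comp g u (fun _ => 3) 5) (Prog.seq (blk g u m t₀ K₀ φ₀)
    (Prog.seq (Prog.loop 5 (fun _ => blk g' u Tm.len t K φ))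
      (Prog.seq (tf.comp g' u (fun _ => 3) 6) (Prog.seq (disp 6 2 1 ψ)
        (Prog.seq (clear 0) (mv 2 1))))))

end Pool.Agent.PIt
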