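import Pool.Agent.PIt.Blk

/-! # The loop over the steps -/

set_option autoImplicit false

namespace Pool.Agent.PIt

open Pool.Agent.PT
open Function (update)

variable {Δ A : Type}

/-- A step: a word of the same length. -/
noncomputable def stp (t : Tm Δ) (K : ℕ) (φ : ℕ → Δ) (z : List Δ) : List Δ := wd Tm.len t K φ z

theorem length_stp (t : Tm Δ) (K : ℕ) (φ : ℕ → Δ) (z : List Δ) :
    (stp t K φ z).length = z.length := by
  unfold stp wd
  rw [List.length_map, List.length_range]
  rfl

private theorem wd_map (g : Δ → A) (t : Tm Δ) (K : ℕ) (φ : ℕ → Δ) (z : List Δ) :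
    wd Tm.len t K (fun n => g (φ n)) z = (stp t K φ z).map g := by
  unfold stp wd
  rw [List.map_map]
  rfl

private theorem St_upd {l l' : List A} {s : Store A} (h : St l s) (v : List A) :
    St l' (update (update s 5 v) 0 l') where
  r0 := by simp
  r1 := by simp [h.r1]
  r2 := by simp [h.r2]
  r3 := by simp [h.r3]
  r4 := by simp [h.r4]
  r6 := fun j hj => by
    rw [Function.update_of_ne (by omega), Function.update_of_ne (by omega), h.r6 j hj]

private theorem St_upd5 {l : List A} {s : Store A} (h : St l s) (v : List A) :
    St l (update s 5 v) where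
  r0 := by simp [h.r0]
  r1 := by simp [h.r1]
  r2 := by simp [h.r2]
  r3 := by simp [h.r3]
  r4 := by simp [h.r4]
  r6 := fun j hj => by rw [Function.update_of_ne (by omega), h.r6 j hj]

/-- Induction on `r`, `Runs.loopCons`, `runs_blk` for the word `z` in register `0` (all words have the
same length), `(wd Tm.len t K (fun n => g (φ n)) z) = (stp t K φ z).map g`. -/
theorem runs_loop (g : Δ → A) (hg : Function.Injective g) (u : A) (t : Tm Δ) (K : ℕ) (φ : ℕ → Δ) :
    ∃ T : ℕ → ℕ, PB T ∧ ∀ (r : ℕ) (z : List Δ) (s : Store A), St (z.map g) s → s 5 = un u r →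
      Runs (Prog.loop 5 (fun _ => blk g u Tm.len t K (fun n => g (φ n)))) s
        (update (update s 5 []) 0 (((stp t K φ)^[r] z).map g)) (r * (T z.length + 1) + 1) := by
  obtain ⟨T, hT, hrun⟩ := runs_blk g hg u Tm.len t K (fun n => g (φ n))
  refine ⟨T, hT, fun r => ?_⟩
  induction r with
  | zero =>
    intro z s hs h5
    refine (Runs.loopNil h5).conv ?_ (by omega)
    funext i
    by_cases e0 : i = 0
    · subst e0
      simp [hs.r0]
    · by_cases e5 : i = 5
      · subst e5
        simp [h5]
      · simp [e0, e5]
  | succ r ih =>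
    intro z s hs h5
    have h1 := (hrun z (update s 5 (un u r)) (St_upd5 hs _)).2
    rw [wd_map] at h1
    have h2 := ih (stp t K φ z) (update (update s 5 (un u r)) 0 ((stp t K φ z).map g))
      (St_upd hs _) (by simp)
    rw [length_stp] at h2
    rw [un_succ] at h5
    refine (Runs.loopCons (p := fun _ => blk g u Tm.len t K (fun n => g (φ n))) h5 h1 h2).conv
      ?_ ?_
    · funext i
      rw [Function.iterate_succ_apply]
      by_cases e0 : i = 0
      · subst e0
        simp
      · by_cases e5 : i = 5
        · subst e5
          simp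
        · simp [e0, e5]
    · have : (r + 1) * (T z.length + 1) = r * (T z.length + 1) + (T z.length + 1) := by ring
      omega

end Pool.Agent.PIt
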