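import Pool.Agent.PIt.Defs

/-! # The loop that writes the letters -/

set_option autoImplicit false

namespace Pool.Agent.PIt

open Pool.Agent.PT
open Function (update)

variable {Γ A : Type}

private theorem runs_outL' (g : Γ → A) (u : A) (t : Tm Γ) (T : ℕ → ℕ) (ht : Spec g u t T) (N : ℕ)
    (x : List Γ) (hx : x.length ≤ N) (K : ℕ) (φ : ℕ → A) : ∀ (b : ℕ) (l : List A)
      (s : Store A), b ≤ N → s 0 = x.map g → s 1 = [] → s 2 = l → s 3 = [] → s 4 = un u b →
      (∀ j, 6 ≤ j → s j = []) →
      Runs (Prog.loop 4 (fun _ => Prog.seq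
        (t.comp g u (fun i => Nat.casesOn i 4 (fun _ => 3)) 6) (disp 6 2 K φ))) s
        (update (update s 4 []) 2
          ((List.range b).map (fun i => φ (min (t.eval x (cons i (fun _ => 0))) K)) ++ l))
        (b * (T N + (2 * T N + K + 2) + 1) + 1)
  | 0, l, s, _, _, _, h2, _, h4, _ => by
    refine (Runs.loopNil h4).conv ?_ (by simp)
    funext i
    by_cases e1 : i = 2
    · subst e1; simp [h2]
    · by_cases e2 : i = 4
      · subst e2; simp [h4]
      · simp [e1, e2]
  | b + 1, l, s, hb, h0, h1, h2, h3, h4, h5 => by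
    set s1 := update s 4 (un u b) with hs1
    have hc : ∀ i, cons b (fun _ => 0) i ≤ N := cons_le (by omega) (fun _ => Nat.zero_le _)
    have hgood : Good g u x (cons b (fun _ => 0)) (fun i => Nat.casesOn i 4 (fun _ => 3)) 6 s1 := by
      refine ⟨⟨?_, ?_, fun i => ?_, fun i => ?_, fun i => ?_⟩, fun j hj => ?_⟩
      · simp [hs1, h0]
      · simp [hs1, h1]
      · cases i <;> simp
      · cases i <;> simp
      · cases i
        · simp [hs1]
        · simp [hs1, h3]
      · rw [hs1, Function.update_of_ne (by omega)]; exact h5 j hj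
    have g1 := ht.run N x _ _ _ s1 hx hc hgood
    have hval := ht.val N x _ hx hc
    set v := t.eval x (cons b (fun _ => 0)) with hv
    have g2 := runs_disp u 6 2 (by decide) K φ v (update s1 6 (un u v)) (by simp)
    set s2 := update (update (update s1 6 (un u v)) 6 []) 2
      (φ (min v K) :: update s1 6 (un u v) 2) with hs2
    have g3 := runs_outL' g u t T ht N x hx K φ b (φ (min v K) :: l) s2 (by omega)
      (by simp [hs2, hs1, h0]) (by simp [hs2, hs1, h1]) (by simp [hs2, hs1, h2])
      (by simp [hs2, hs1, h3]) (by simp [hs2, hs1]) (fun j hj => by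
        rw [hs2, Function.update_of_ne (by omega)]
        by_cases e : j = 6
        · subst e; simp
        · rw [Function.update_of_ne e, Function.update_of_ne e, hs1,
            Function.update_of_ne (by omega)]
          exact h5 j hj)
    refine (Runs.loopCons (p := fun _ => Prog.seq
        (t.comp g u (fun i => Nat.casesOn i 4 (fun _ => 3)) 6) (disp 6 2 K φ)) h4
        (g1.seq g2) g3).conv ?_ ?_
    · funext i
      by_cases e1 : i = 2
      · subst e1
        simp [List.range_succ, hv]
      · by_cases e2 : i = 4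
        · subst e2; simp
        · by_cases e3 : i = 6
          · subst e3; simp [hs2, h5 6 le_rfl]
          · simp [e1, e2, e3, hs2, hs1]
    · have : (b + 1) * (T N + (2 * T N + K + 2) + 1) =
          b * (T N + (2 * T N + K + 2) + 1) + (T N + (2 * T N + K + 2) + 1) := by ring
      omega

/-- Exactly the proof of `runs_out` in `PT/Out.lean`, with register `6` in place of `5` and register
`5` arbitrary (copy that proof). -/
theorem runs_outL (g : Γ → A) (u : A) (t : Tm Γ) (T : ℕ → ℕ) (ht : Spec g u t T) (N : ℕ)
    (x : List Γ) (hx : x.length ≤ N) (K : ℕ) (φ : ℕ → A) : ∀ (b : ℕ) (l : List A)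
      (s : Store A), b ≤ N → s 0 = x.map g → s 1 = [] → s 2 = l → s 3 = [] → s 4 = un u b →
      (∀ j, 6 ≤ j → s j = []) →
      Runs (outL g u t K φ) s
        (update (update s 4 []) 2
          ((List.range b).map (fun i => φ (min (t.eval x (cons i (fun _ => 0))) K)) ++ l))
        (b * (T N + (2 * T N + K + 2) + 1) + 1) := by
  unfold outL
  exact runs_outL' g u t T ht N x hx K φ

end Pool.Agent.PIt
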