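import Pool.Agent.PIt.Loop

/-! # The whole program -/

set_option autoImplicit false

namespace Pool.Agent.PIt

open Pool.Agent.PT Turing Computability
open Function (update)

variable {Γ Δ A : Type}

private theorem wd_map_Run (m t : Tm Γ) (K : ℕ) (φ : ℕ → Δ) (g' : Δ → A) (x : List Γ) :
    wd m t K (fun n => g' (φ n)) x = (wd m t K φ x).map g' := by
  unfold wd
  rw [List.map_map]
  rfl

private theorem length_iter_Run (t : Tm Δ) (K : ℕ) (φ : ℕ → Δ) :
    ∀ (r : ℕ) (z : List Δ), ((stp t K φ)^[r] z).length = z.length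
  | 0, _ => rfl
  | r + 1, z => by
    rw [Function.iterate_succ_apply, length_iter_Run t K φ r, length_stp]

/-- `exists_spec` for `R` (registers: the variables in register `3`, result in register `5`),
`runs_blk`, `runs_loop`, `exists_spec` for `tf`, `runs_disp` (`PT/Out.lean`), `runs_clear`,
`runs_mv`. The number of steps and the length of the first word are polynomially bounded. -/
theorem runs_itP (g : Γ → A) (hg : Function.Injective g) (g' : Δ → A)
    (hg' : Function.Injective g') (u : A) (R m t₀ : Tm Γ) (K₀ : ℕ) (φ₀ : ℕ → Δ)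
    (t : Tm Δ) (K : ℕ) (φ : ℕ → Δ) (tf : Tm Δ) (ψ : ℕ → A) : ∃ T : ℕ → ℕ, PB T ∧
      ∀ x : List Γ, Runs (itP g g' u R m t₀ K₀ (fun n => g' (φ₀ n)) t K (fun n => g' (φ n)) tf ψ)
        (single 0 (x.map g)) (single 1 [ψ (min (tf.eval
          ((stp t K φ)^[R.eval x (fun _ => 0)] (wd m t₀ K₀ φ₀ x)) (fun _ => 0)) 1)])
        (T x.length) := by
  obtain ⟨TR, hR⟩ := exists_spec g hg u R
  obtain ⟨TB, hTB, hB⟩ := runs_blk g hg u m t₀ K₀ (fun n => g' (φ₀ n))
  obtain ⟨TL, hTL, hL⟩ := runs_loop g' hg' u t K φ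
  obtain ⟨TF, hF⟩ := exists_spec g' hg' u tf
  have hLB : PB (fun N => TL (TB N)) := hTL.comp hTB
  have hFB : PB (fun N => TF (TB N)) := hF.pb.comp hTB
  refine ⟨fun N => TR N + (TB N + ((TR N * (TL (TB N) + 1) + 1) + (TF (TB N) +
    ((2 * TF (TB N) + 1 + 2) + ((2 * TB N + 1) + 3))))), ?_, ?_⟩
  · exact hR.pb.add (hTB.add (((hR.pb.mul (hLB.add (PB.const 1))).add (PB.const 1)).add
      (hFB.add (((((PB.const 2).mul hFB).add (PB.const 1)).add (PB.const 2)).add
        ((((PB.const 2).mul hTB).add (PB.const 1)).add (PB.const 3))))))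
  · intro x
    set N := x.length with hN
    have hrval := hR.val N x (fun _ => 0) le_rfl (fun _ => Nat.zero_le _)
    set r := R.eval x (fun _ => 0) with hr
    set z := wd m t₀ K₀ φ₀ x with hz
    set y := (stp t K φ)^[r] z with hy
    have hyz : y.length = z.length := length_iter_Run t K φ r z
    set s0 : Store A := single 0 (x.map g) with hs0
    have g1 := hR.run N x (fun _ => 0) (fun _ => 3) 5 s0 le_rfl (fun _ => Nat.zero_le _)
      ⟨⟨by simp [hs0, single], by simp [hs0, single], fun _ => by omega, fun _ => by omega,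
        fun _ => by simp [hs0, single]⟩, fun j hj => by
          have : j ≠ 0 := by omega
          simp [hs0, single, this]⟩
    set s1 := update s0 5 (un u r) with hs1
    have hS1 : St (x.map g) s1 := by
      refine ⟨by simp [hs1, hs0, single], by simp [hs1, hs0, single], by simp [hs1, hs0, single],
        by simp [hs1, hs0, single], by simp [hs1, hs0, single], fun j hj => ?_⟩
      have h1 : j ≠ 0 := by omega
      have h2 : j ≠ 5 := by omega
      simp [hs1, hs0, single, h1, h2]
    obtain ⟨hlen, g2⟩ := hB x s1 hS1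
    rw [wd_map_Run, ← hz] at hlen g2
    rw [List.length_map] at hlen
    set s2 := update s1 0 (z.map g') with hs2
    have hS2 : St (z.map g') s2 := by
      refine ⟨by simp [hs2], by simp [hs2, hS1.r1], by simp [hs2, hS1.r2],
        by simp [hs2, hS1.r3], by simp [hs2, hS1.r4], fun j hj => ?_⟩
      have h1 : j ≠ 0 := by omega
      rw [hs2, Function.update_of_ne h1, hS1.r6 j hj]
    have g3 := hL r z s2 hS2 (by simp [hs2, hs1])
    rw [← hy] at g3
    set s3 := update (update s2 5 []) 0 (y.map g') with hs3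
    have h30 : s3 0 = y.map g' := by simp [hs3]
    have h31 : s3 1 = [] := by simp [hs3, hS2.r1]
    have h32 : s3 2 = [] := by simp [hs3, hS2.r2]
    have h33 : s3 3 = [] := by simp [hs3, hS2.r3]
    have h34 : s3 4 = [] := by simp [hs3, hS2.r4]
    have h35 : s3 5 = [] := by simp [hs3]
    have h36 : ∀ j, 6 ≤ j → s3 j = [] := by
      intro j hj
      rw [hs3, Function.update_of_ne (by omega), Function.update_of_ne (by omega), hS2.r6 j hj]
    have hyB : y.length ≤ TB N := by rw [hyz]; exact hlen
    have hvval := hF.val (TB N) y (fun _ => 0) hyB (fun _ => Nat.zero_le _)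
    have g4 := hF.run (TB N) y (fun _ => 0) (fun _ => 3) 6 s3 hyB (fun _ => Nat.zero_le _)
      ⟨⟨h30, h31, fun _ => by omega, fun _ => by omega, fun _ => by simp [h33]⟩, h36⟩
    set v := tf.eval y (fun _ => 0) with hv
    set s4 := update s3 6 (un u v) with hs4
    have g5 := runs_disp u 6 2 (by decide) 1 ψ v s4 (by simp [hs4])
    set s5 := update (update s4 6 []) 2 (ψ (min v 1) :: s4 2) with hs5
    have g6 := runs_clear 0 (y.map g') s5 (by simp [hs5, hs4, h30])
    set s6 := update s5 0 [] with hs6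
    have g7 := runs_mv 2 1 (by decide) [ψ (min v 1)] s6 (by simp [hs6, hs5, hs4, h32])
    refine (g1.seq (g2.seq (g3.seq (g4.seq (g5.seq (g6.seq g7)))))).conv ?_ ?_
    · funext i
      by_cases e1 : i = 1
      · subst e1; simp [single, hs6, hs5, hs4, h31]
      · by_cases e0 : i = 0
        · subst e0; simp [single, hs6]
        · by_cases e2 : i = 2
          · subst e2; simp [single]
          · by_cases e6 : i = 6
            · subst e6; simp [single, hs6, hs5]
            · have h3i : s3 i = [] := by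
                by_cases e3 : i = 3
                · subst e3; exact h33
                · by_cases e4 : i = 4
                  · subst e4; exact h34
                  · by_cases e5 : i = 5
                    · subst e5; exact h35
                    · exact h36 i (by omega)
              simp [single, e1, e0, e2, e6, hs6, hs5, hs4, h3i]
    · have h1 : r * (TL z.length + 1) ≤ TR N * (TL (TB N) + 1) :=
        Nat.mul_le_mul hrval (Nat.succ_le_succ (hTL.1 hlen))
      simp only [List.length_map, List.length_cons, List.length_nil, ← hN]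
      omega

/-- `runs_itP` with the alphabet `A = Γ ⊕ Δ ⊕ Bool`, `polyTime_of_prog` (`PT/ToTM2.lean`, compare
`polyTime_of_terms` in `PT/Out.lean`). `encodeBool b = [b]`. -/
theorem polyTime_iter [Fintype Γ] [Fintype Δ] (R m t₀ : Tm Γ) (K₀ : ℕ) (φ₀ : ℕ → Δ)
    (t : Tm Δ) (K : ℕ) (φ : ℕ → Δ) (tf : Tm Δ) (f : List Γ → Bool)
    (hf : ∀ x, f x = decide (tf.eval
      ((stp t K φ)^[R.eval x (fun _ => 0)] (wd m t₀ K₀ φ₀ x)) (fun _ => 0) ≠ 0)) :
    Nonempty (TM2ComputableInPolyTime (encodingList Γ).encode encodeBool f) := by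
  classical
  obtain ⟨T, hT, hrun⟩ := runs_itP (A := Γ ⊕ Δ ⊕ Bool) Sum.inl Sum.inl_injective
    (fun d => Sum.inr (Sum.inl d)) (fun a b h => Sum.inl_injective (Sum.inr_injective h))
    (Sum.inr (Sum.inr false)) R m t₀ K₀ φ₀ t K φ tf
    (fun n => Sum.inr (Sum.inr (decide (n ≠ 0))))
  obtain ⟨P, hP⟩ := hT.toPoly
  refine polyTime_of_prog _ _ f _ Sum.inl
    (Sum.elim (fun _ => false) (Sum.elim (fun _ => false) id)) (Sum.inr (Sum.inr false))
    (fun x => [Sum.inr (Sum.inr (decide (min (tf.eval
      ((stp t K φ)^[R.eval x (fun _ => 0)] (wd m t₀ K₀ φ₀ x)) (fun _ => 0)) 1 ≠ 0)))])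
    (fun x => ?_) P 1 (fun x => by simp) (fun x => (hrun x).mono (hP _))
  rw [hf x]
  set v := tf.eval ((stp t K φ)^[R.eval x (fun _ => 0)] (wd m t₀ K₀ φ₀ x)) (fun _ => 0)
  have h1 : (min v 1 ≠ 0) ↔ (v ≠ 0) := by omega
  simp only [List.map_cons, List.map_nil, Sum.elim_inr, id_eq, encodeBool, List.pure_def,
    decide_eq_decide.2 h1]

end Pool.Agent.PIt
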